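import Pool.Agent.U237.LI.Core2
import Pool.Agent.U147.NF.F

/-!
# Project LI: local Fourier uniformity for the frequencies in a neighbourhood of a thin set
-/

set_option autoImplicit false
set_option maxHeartbeats 1000000

namespace Pool.Agent.U237.LI.F2

open Finset Filter Topology
open Pool.Agent.H807R2.Dav (ee norm_ee ee_add ee_int ee_zero)
open Pool.Agent.W24.Katai (Mul1 cor)
open Pool.Agent.U237.NF.Lite
open Pool.Agent.U237.LI.Core2
open Pool.Agent.U147.NF.F (shift_bound sum_shifts)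

/-- local Fourier uniformity, for neighbourhoods of thin sets -/
def S_FT : Prop := ∀ h : ℕ → ℂ, Mul1 h → ExpoSmall h → ∀ η : ℝ → ℝ, Tendsto η atTop (𝓝 0) → ∀ ε : ℝ, 0 < ε →
  ∃ τ : ℝ, 0 < τ ∧
  ∃ H0 : ℕ, ∀ H : ℕ, H0 ≤ H → ∃ N0 : ℕ, ∀ N : ℕ, N0 ≤ N → ∀ A : Set UnitAddCircle, ThinT η τ A →
  ∀ a : ℕ → ℝ, (∀ n, ((a n : ℝ) : UnitAddCircle) ∈ A) →
  ∑ n ∈ range N, ‖∑ i ∈ range H, h (n + i) * ee ((i : ℝ) * a n)‖ ≤ ε * H * N

theorem t_FT (hC : S_CoreT) : S_FT := by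
  intro h hM hE η hη ε hε
  obtain ⟨τ, hτ, H0, hH0⟩ := hC h hM hE η hη (ε / 4) (by positivity)
  refine ⟨τ, hτ, max H0 1, fun H hH => ?_⟩
  obtain ⟨N0, hN0⟩ := hH0 H ((le_max_left _ _).trans hH)
  have hH1 : 1 ≤ H := (le_max_right _ _).trans hH
  have hH' : (0:ℝ) < H := by exact_mod_cast hH1
  obtain ⟨N1, hN1⟩ := exists_nat_ge (((ε / 4 + 1) * H + 1) / (ε / 2))
  refine ⟨max N0 (max N1 1), fun N hN A hA a ha => ?_⟩
  have hNN0 : N0 ≤ N := (le_max_left _ _).trans hN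
  have hNN1 : N1 ≤ N := (le_max_left _ _).trans ((le_max_right _ _).trans hN)
  have hNN2 : 1 ≤ N := (le_max_right _ _).trans ((le_max_right _ _).trans hN)
  have h1 : ∀ s ∈ range H, ∑ n ∈ (Ico 1 N).filter (fun n => H ∣ n + s),
      ‖∑ i ∈ range H, h (n + i) * ee ((i : ℝ) * a n)‖ ≤ ε / 4 * N + (ε / 4 * (N + H) + H) := by
    intro s hs
    rw [Finset.mem_range] at hs
    apply shift_bound hM.1 (by positivity) hs
    intro om al h2 h3 h4 h5
    refine hN0 N hNN0 A hA s hs om al h2 h3 ?_ h5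
    intro k
    obtain ⟨n, hn⟩ := h4 k
    rw [hn]
    exact ha n
  have h2 : ∑ n ∈ range N, ‖∑ i ∈ range H, h (n + i) * ee ((i : ℝ) * a n)‖ =
      ‖∑ i ∈ range H, h (0 + i) * ee ((i : ℝ) * a 0)‖ +
      ∑ n ∈ Ico 1 N, ‖∑ i ∈ range H, h (n + i) * ee ((i : ℝ) * a n)‖ := by
    rw [Finset.range_eq_Ico, Finset.sum_eq_sum_Ico_succ_bot (by omega)]
  have h3 : ‖∑ i ∈ range H, h (0 + i) * ee ((i : ℝ) * a 0)‖ ≤ H := by
    refine (norm_sum_le _ _).trans ?_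
    calc ∑ i ∈ range H, ‖h (0 + i) * ee ((i : ℝ) * a 0)‖ ≤ ∑ _i ∈ range H, (1:ℝ) := by
          refine Finset.sum_le_sum (fun i _ => ?_)
          rw [norm_mul, norm_ee, mul_one]
          exact hM.1 _
      _ = H := by simp
  rw [h2, sum_shifts _ N H hH1]
  have h4 := Finset.sum_le_sum h1
  rw [Finset.sum_const, Finset.card_range, nsmul_eq_mul] at h4
  have h5 : ((ε / 4 + 1) * H + 1) / (ε / 2) ≤ N := hN1.trans (by exact_mod_cast hNN1)
  rw [div_le_iff₀ (by positivity)] at h5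
  have h6 : (H:ℝ) * (ε / 4 * N + (ε / 4 * (N + H) + H)) + H ≤ ε * H * N := by
    have : (H:ℝ) * ((ε / 4 + 1) * H + 1) ≤ H * (N * (ε / 2)) := by gcongr
    nlinarith
  linarith

end Pool.Agent.U237.LI.F2
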