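import Pool.Agent.U237.NF.Lite

/-!
# Project LI (helper237): local exponential sums of multiplicative functions with frequencies in an arc

Statements of the packages EQ, TK, COS, MU.
-/

set_option autoImplicit false

namespace Pool.Agent.U237.LI

open Finset Filter Topology MeasureTheory
open Pool.Agent.H807R2.Dav (ee)
open Pool.Agent.W24.Katai (Mul1 cor)
open Pool.Agent.U237.NF.Lite (PB S_E S_C S_M ExpoSmall)

/-- `x` has distance more than `l` from all rationals with denominators at most `B` -/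
def Far (B : ℕ) (l x : ℝ) : Prop := ∀ b : ℕ, 1 ≤ b → b ≤ B → ∀ a : ℤ, l < |x - a / b|

/-- EQ: the multiples `p β`, `p` prime in `(y, 2 y]`, are equidistributed if `β` is not near a rational number with small
denominator -/
def S_EQ : Prop := ∀ φ : C(UnitAddCircle, ℝ), ∀ ε : ℝ, 0 < ε → ∃ B : ℕ, ∀ l : ℝ, 0 < l → ∃ y0 : ℕ, ∀ y : ℕ, y0 ≤ y →
  ∀ β : ℝ, Far B l β →
    |∑ p ∈ PB y, φ ((((p : ℝ) * β : ℝ)) : UnitAddCircle) - ((PB y).card : ℝ) * ∫ x, φ x| ≤ ε * (PB y).card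

/-- TK: the dual form of the inequality of Turán and Kubilius in windows -/
def S_TK : Prop := ∀ Y : ℕ, ∃ L0 : ℕ, ∀ L : ℕ, L0 ≤ L → ∀ (n : ℕ) (g : ℕ → ℂ), (∀ i, ‖g i‖ ≤ 1) →
  ∑ p ∈ (range (Y + 1)).filter Nat.Prime, (1 / (p : ℝ)) *
    ‖(p : ℂ) * ∑ i ∈ (range L).filter (fun i => p ∣ n + i), g i - ∑ i ∈ range L, g i‖ ^ 2 ≤ 4 * (L : ℝ) ^ 2

/-- COS: the mean of `|cos|` along an arithmetic progression which is not near a rational with small denominator -/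
def S_COS : Prop := ∀ ε : ℝ, 0 < ε → ∃ B : ℕ, ∀ l : ℝ, 0 < l → ∃ H0 : ℕ, ∀ H : ℕ, H0 ≤ H → ∀ θ : ℝ, Far B l θ →
  ∀ t : ℝ, ∑ i ∈ range H, |Real.cos (2 * Real.pi * ((i : ℝ) * θ + t))| ≤ (2 / Real.pi + ε) * H

open Classical in
/-- MU: the same on the squarefree integers, on average -/
def S_MU : Prop := ∀ ε : ℝ, 0 < ε → ∃ B : ℕ, ∀ l : ℝ, 0 < l → ∃ H0 : ℕ, ∀ H : ℕ, H0 ≤ H → ∃ N0 : ℕ, ∀ N : ℕ, N0 ≤ N →
  ∀ θ t : ℕ → ℝ,
  ∑ n ∈ (range N).filter (fun n => Far B l (θ n)), ∑ i ∈ (range H).filter (fun i => Squarefree (n + i)),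
    |Real.cos (2 * Real.pi * ((i : ℝ) * θ n + t n))| ≤ (12 / Real.pi ^ 3 + ε) * H * N

end Pool.Agent.U237.LI
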