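import Pool.Agent.U237.LI.Near

/-!
# Project LI: dilating a window by a prime
-/

set_option autoImplicit false
set_option maxHeartbeats 1000000

namespace Pool.Agent.U237.LI

open Finset Filter Topology MeasureTheory
open Pool.Agent.H807R2.Dav (ee norm_ee ee_add)
open Pool.Agent.W24.Katai (Mul1 cor)
open Pool.Agent.U237.NF.Lite (PB S_E S_C S_M ExpoSmall kx)

/-- few multiples -/
lemma card_mult (p m L : ℕ) (hp : 1 ≤ p) : ((range L).filter (fun j => p ∣ m + j)).card ≤ L / p + 2 := by
  have h : ((range L).filter (fun j => p ∣ m + j)).card ≤ (range (L / p + 2)).card := by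
    apply Finset.card_le_card_of_injOn (fun j => (m + j) / p - m / p)
    · intro j hj
      simp only [Finset.coe_filter, Set.mem_ofPred_eq, Finset.mem_range] at hj
      simp only [Finset.coe_range, Set.mem_Iio]
      have h1 : (m + j) / p ≤ (m + L) / p := Nat.div_le_div_right (by omega)
      have h2 : (m + L) / p ≤ m / p + L / p + 1 := by
        rw [Nat.add_div (by omega)]
        split_ifs <;> omega
      have h3 : (m + j) / p - m / p ≤ L / p + 1 := by
        rw [Nat.sub_le_iff_le_add]
        linarith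
      exact Nat.lt_succ_of_le h3
    · intro j hj j' hj' heq
      simp only [Finset.coe_filter, Set.mem_ofPred_eq, Finset.mem_range] at hj hj'
      have heq' : (m + j) / p - m / p = (m + j') / p - m / p := heq
      have h1 : m / p ≤ (m + j) / p := Nat.div_le_div_right (by omega)
      have h2 : m / p ≤ (m + j') / p := Nat.div_le_div_right (by omega)
      have h3 : (m + j) / p = (m + j') / p := by omega
      have h4 := Nat.mul_div_cancel' hj.2
      have h5 := Nat.mul_div_cancel' hj'.2
      rw [h3] at h4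
      omega
  rwa [Finset.card_range] at h

/-- the sum over the multiples of `p` in a window -/
lemma dil {h : ℕ → ℂ} (hm : Mul1 h) {p : ℕ} (hp : p.Prime) (L n : ℕ) (θ : ℝ) :
    ‖∑ i ∈ (range L).filter (fun i => p ∣ n + i), h (n + i) * ee ((i : ℝ) * θ)‖ ≤
      ‖WS h (L / p) ((n + p - 1) / p) ((p : ℝ) * θ)‖ + 2 * ((L / p : ℕ) / p : ℝ) + 5 := by
  have hp1 : 1 ≤ p := hp.one_lt.le
  have hp2 : 2 ≤ p := hp.two_le
  set m0 : ℕ := (n + p - 1) / p with hm0
  have e1 : p * m0 ≤ n + p - 1 := Nat.mul_div_le _ _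
  have e2 : n + p - 1 < p * m0 + p := by
    have := Nat.lt_mul_div_succ (n + p - 1) (show 0 < p by omega)
    rw [← hm0, Nat.mul_succ] at this
    exact this
  have e3 : n ≤ p * m0 := by omega
  obtain ⟨i0, hi0⟩ := Nat.exists_eq_add_of_le e3
  have hi0p : i0 < p := by omega
  have hLp : p * (L / p) ≤ L := Nat.mul_div_le _ _
  have hLp2 : L < p * (L / p) + p := by
    have := Nat.lt_mul_div_succ L (show 0 < p by omega)
    rw [Nat.mul_succ] at this
    exact this
  set S : Finset ℕ := (range L).filter (fun i => p ∣ n + i) with hS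
  set S' : Finset ℕ := (range (L / p)).image (fun j => i0 + p * j) with hS'
  have hsub : S' ⊆ S := by
    intro i hi
    rw [hS', Finset.mem_image] at hi
    obtain ⟨j, hj, rfl⟩ := hi
    rw [Finset.mem_range] at hj
    rw [hS, Finset.mem_filter, Finset.mem_range]
    have h1 : p * (j + 1) ≤ p * (L / p) := Nat.mul_le_mul_left _ hj
    rw [Nat.mul_succ] at h1
    refine ⟨by omega, ?_⟩
    have h2 : n + (i0 + p * j) = p * (m0 + j) := by
      rw [mul_add]; omega
    rw [h2]
    exact Dvd.intro _ rfl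
  have hdiff : (S \ S') ⊆ {i0 + p * (L / p)} := by
    intro i hi
    rw [Finset.mem_sdiff, hS, Finset.mem_filter, Finset.mem_range] at hi
    obtain ⟨⟨hiL, k, hk⟩, hi2⟩ := hi
    rw [Finset.mem_singleton]
    by_contra hne
    apply hi2
    rw [hS', Finset.mem_image]
    -- `p * k = n + i`
    have h1 : m0 ≤ k := by
      by_contra hlt
      push Not at hlt
      have h3 : p * (k + 1) ≤ p * m0 := Nat.mul_le_mul_left _ hlt
      rw [Nat.mul_succ] at h3
      omega
    obtain ⟨j, rfl⟩ := Nat.exists_eq_add_of_le h1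
    rw [mul_add] at hk
    have h4 : i = i0 + p * j := by omega
    refine ⟨j, ?_, h4.symm⟩
    rw [Finset.mem_range]
    by_contra hge
    push Not at hge
    rcases Nat.lt_or_ge (L / p) j with h5 | h5
    · have h6 : p * (L / p + 1) ≤ p * j := Nat.mul_le_mul_left _ h5
      rw [Nat.mul_succ] at h6
      omega
    · have h7 : j = L / p := by omega
      rw [h7] at h4
      exact hne h4
  have hF : ∀ i, ‖h (n + i) * ee ((i : ℝ) * θ)‖ ≤ 1 := by
    intro i
    rw [norm_mul, norm_ee, mul_one]
    exact hm.1 _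
  have h1 : ∑ i ∈ S, h (n + i) * ee ((i : ℝ) * θ) =
      ∑ i ∈ S \ S', h (n + i) * ee ((i : ℝ) * θ) + ∑ i ∈ S', h (n + i) * ee ((i : ℝ) * θ) :=
    (Finset.sum_sdiff hsub).symm
  have h2 : ‖∑ i ∈ S \ S', h (n + i) * ee ((i : ℝ) * θ)‖ ≤ 1 := by
    refine (norm_sum_le _ _).trans ((Finset.sum_le_sum (fun i _ => hF i)).trans ?_)
    rw [Finset.sum_const, nsmul_eq_mul, mul_one]
    have := Finset.card_le_card hdiff
    rw [Finset.card_singleton] at this
    exact_mod_cast this
  have h3 : ∑ i ∈ S', h (n + i) * ee ((i : ℝ) * θ) =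
      ee ((i0 : ℝ) * θ) * ∑ j ∈ range (L / p), h (p * (m0 + j)) * ee ((j : ℝ) * ((p : ℝ) * θ)) := by
    rw [hS', Finset.sum_image, Finset.mul_sum]
    · refine Finset.sum_congr rfl (fun j _ => ?_)
      have h4 : n + (i0 + p * j) = p * (m0 + j) := by rw [mul_add]; omega
      rw [h4]
      have h5 : ((i0 + p * j : ℕ) : ℝ) * θ = (i0 : ℝ) * θ + (j : ℝ) * ((p : ℝ) * θ) := by
        push_cast; ring
      rw [h5, ee_add]
      ring
    · intro j _ j' _ hjj
      have : i0 + p * j = i0 + p * j' := hjj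
      have h6 : p * j = p * j' := by omega
      exact Nat.eq_of_mul_eq_mul_left (by omega) h6
  have h4 : ‖∑ j ∈ range (L / p), h (p * (m0 + j)) * ee ((j : ℝ) * ((p : ℝ) * θ))‖ ≤
      ‖WS h (L / p) m0 ((p : ℝ) * θ)‖ + 2 * ((L / p / p : ℕ) + 2 : ℝ) := by
    have h5 : ∑ j ∈ range (L / p), h (p * (m0 + j)) * ee ((j : ℝ) * ((p : ℝ) * θ)) =
        h p * WS h (L / p) m0 ((p : ℝ) * θ) +
          ∑ j ∈ range (L / p), (h (p * (m0 + j)) - h p * h (m0 + j)) * ee ((j : ℝ) * ((p : ℝ) * θ)) := by
      unfold WS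
      rw [Finset.mul_sum, ← Finset.sum_add_distrib]
      refine Finset.sum_congr rfl (fun j _ => ?_)
      ring
    rw [h5]
    refine (norm_add_le _ _).trans (add_le_add ?_ ?_)
    · rw [norm_mul]
      calc ‖h p‖ * ‖WS h (L / p) m0 ((p : ℝ) * θ)‖ ≤ 1 * ‖WS h (L / p) m0 ((p : ℝ) * θ)‖ := by
            gcongr
            exact hm.1 _
        _ = _ := one_mul _
    · refine (norm_sum_le _ _).trans ?_
      have h6 : ∀ j ∈ range (L / p), ‖(h (p * (m0 + j)) - h p * h (m0 + j)) * ee ((j : ℝ) * ((p : ℝ) * θ))‖ ≤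
          if p ∣ m0 + j then (2:ℝ) else 0 := by
        intro j _
        rw [norm_mul, norm_ee, mul_one]
        split_ifs with h7
        · refine (norm_sub_le _ _).trans ?_
          rw [norm_mul]
          have a1 := hm.1 (p * (m0 + j))
          have a2 := hm.1 p
          have a3 := hm.1 (m0 + j)
          have a4 := norm_nonneg (h p)
          have a5 := norm_nonneg (h (m0 + j))
          nlinarith
        · rw [hm.2 p (m0 + j) ((Nat.Prime.coprime_iff_not_dvd hp).2 h7), sub_self, norm_zero]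
      refine (Finset.sum_le_sum h6).trans ?_
      rw [← Finset.sum_filter, Finset.sum_const, nsmul_eq_mul, mul_comm]
      have h8 := card_mult p m0 (L / p) hp1
      have h9 : (((range (L / p)).filter (fun j => p ∣ m0 + j)).card : ℝ) ≤ ((L / p / p : ℕ) + 2 : ℝ) := by
        exact_mod_cast h8
      linarith
  have h10 : ((L / p / p : ℕ) : ℝ) ≤ ((L / p : ℕ) : ℝ) / p := Nat.cast_div_le
  rw [h1, h3]
  refine (norm_add_le _ _).trans ?_
  rw [norm_mul, norm_ee, one_mul]
  linarith

end Pool.Agent.U237.LI
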