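import Pool.Agent.U237.LI.LB1

/-!
# Project LI: sums over `n` of dilated windows
-/

set_option autoImplicit false
set_option maxHeartbeats 1000000

namespace Pool.Agent.U237.LI

open Finset Filter Topology MeasureTheory
open Pool.Agent.H807R2.Dav (ee norm_ee ee_add)
open Pool.Agent.W24.Katai (Mul1 cor)
open Pool.Agent.U237.NF.Lite (PB S_E S_C S_M ExpoSmall kx)

/-- `s` bounds the mean of the normalized local exponential sums with frequencies in `C` -/
def UpperBd (h : ℕ → ℂ) (C : Set UnitAddCircle) (s : ℝ) : Prop :=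
  ∀ ε : ℝ, 0 < ε → ∃ H0 : ℕ, ∀ H : ℕ, H0 ≤ H → ∃ N0 : ℕ, ∀ N : ℕ, N0 ≤ N →
    ∀ a : ℕ → ℝ, (∀ n, ((a n : ℝ) : UnitAddCircle) ∈ C) → ∑ n ∈ range N, ‖WS h H n (a n)‖ ≤ (s + ε) * H * N

open Classical in
/-- the dilated windows -/
lemma dil_sum (h : ℕ → ℂ) (C : Set UnitAddCircle) (c0 : ℝ) (hc0 : ((c0 : ℝ) : UnitAddCircle) ∈ C) (p L' N : ℕ)
    (hp : 1 ≤ p) (D : ℝ)
    (hD : ∀ a : ℕ → ℝ, (∀ n, ((a n : ℝ) : UnitAddCircle) ∈ C) → ∑ n ∈ range (N / p + 2), ‖WS h L' n (a n)‖ ≤ D)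
    (θ : ℕ → ℝ) :
    ∑ n ∈ range N, (if (((p : ℝ) * θ n : ℝ) : UnitAddCircle) ∈ C then ‖WS h L' ((n + p - 1) / p) ((p : ℝ) * θ n)‖ else 0) ≤
      p * D := by
  set al : ℕ → ℕ → ℝ := fun r m => if (((p : ℝ) * θ (p * m - r) : ℝ) : UnitAddCircle) ∈ C then (p : ℝ) * θ (p * m - r) else c0
    with hal
  have hal2 : ∀ r m, ((al r m : ℝ) : UnitAddCircle) ∈ C := by
    intro r m
    simp only [hal]
    split_ifs with h1
    · exact h1
    · exact hc0
  set e : ℕ → ℕ × ℕ := fun n => (p * ((n + p - 1) / p) - n, (n + p - 1) / p) with he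
  have hdiv : ∀ n, n ≤ p * ((n + p - 1) / p) ∧ p * ((n + p - 1) / p) < n + p := by
    intro n
    have e1 : p * ((n + p - 1) / p) ≤ n + p - 1 := Nat.mul_div_le _ _
    have e2 : n + p - 1 < p * ((n + p - 1) / p) + p := by
      have := Nat.lt_mul_div_succ (n + p - 1) (show 0 < p by omega)
      rw [Nat.mul_succ] at this
      exact this
    constructor <;> omega
  have hinj : Set.InjOn e (range N : Set ℕ) := by
    intro n _ n' _ hnn
    simp only [he, Prod.mk.injEq] at hnn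
    obtain ⟨h1, h2⟩ := hnn
    have a1 := hdiv n
    have a2 := hdiv n'
    rw [h2] at h1 a1
    omega
  have hmaps : (range N).image e ⊆ range p ×ˢ range (N / p + 2) := by
    intro x hx
    rw [Finset.mem_image] at hx
    obtain ⟨n, hn, rfl⟩ := hx
    rw [Finset.mem_range] at hn
    simp only [he, Finset.mem_product, Finset.mem_range]
    have a1 := hdiv n
    refine ⟨by omega, ?_⟩
    have h1 : (n + p - 1) / p ≤ (N + p) / p := Nat.div_le_div_right (by omega)
    have h2 : (N + p) / p = N / p + 1 := Nat.add_div_right _ (by omega)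
    rw [h2] at h1
    exact Nat.lt_succ_of_le h1
  calc ∑ n ∈ range N, (if (((p : ℝ) * θ n : ℝ) : UnitAddCircle) ∈ C then ‖WS h L' ((n + p - 1) / p) ((p : ℝ) * θ n)‖ else 0)
      ≤ ∑ n ∈ range N, ‖WS h L' (e n).2 (al (e n).1 (e n).2)‖ := by
        refine Finset.sum_le_sum (fun n _ => ?_)
        split_ifs with h1
        · have h2 : p * (e n).2 - (e n).1 = n := by
            simp only [he]
            have a1 := hdiv n
            omega
          have h3 : al (e n).1 (e n).2 = (p : ℝ) * θ n := by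
            simp only [hal]
            rw [h2, if_pos h1]
          rw [h3]
        · exact norm_nonneg _
    _ = ∑ x ∈ (range N).image e, ‖WS h L' x.2 (al x.1 x.2)‖ := by
        rw [Finset.sum_image hinj]
    _ ≤ ∑ x ∈ range p ×ˢ range (N / p + 2), ‖WS h L' x.2 (al x.1 x.2)‖ :=
        Finset.sum_le_sum_of_subset_of_nonneg hmaps (fun _ _ _ => norm_nonneg _)
    _ = ∑ r ∈ range p, ∑ m ∈ range (N / p + 2), ‖WS h L' m (al r m)‖ := by
        rw [Finset.sum_product]
    _ ≤ ∑ _r ∈ range p, D := Finset.sum_le_sum (fun r _ => hD _ (hal2 r))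
    _ = p * D := by rw [Finset.sum_const, Finset.card_range, nsmul_eq_mul]

/-- the blocks of primes are disjoint -/
lemma blocks (f : ℕ → ℝ) (hf : ∀ n, 0 ≤ f n) (k0 : ℕ) : ∀ k1 : ℕ, k0 ≤ k1 →
    ∑ k ∈ Ico k0 k1, ∑ p ∈ PB (2 ^ k), f p ≤ ∑ p ∈ (range (2 ^ k1 + 1)).filter Nat.Prime, f p := by
  intro k1 hk
  induction k1, hk using Nat.le_induction with
  | base =>
    rw [Finset.Ico_self, Finset.sum_empty]
    exact Finset.sum_nonneg (fun _ _ => hf _)
  | succ k hk ih =>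
    rw [Finset.sum_Ico_succ_top hk]
    have h1 : (range (2 ^ k + 1)).filter Nat.Prime ∪ PB (2 ^ k) ⊆ (range (2 ^ (k + 1) + 1)).filter Nat.Prime := by
      intro x hx
      rw [Finset.mem_union] at hx
      unfold PB at hx
      rw [Finset.mem_filter, Finset.mem_filter, Finset.mem_range, Finset.mem_Ioc] at hx
      rw [Finset.mem_filter, Finset.mem_range]
      rw [pow_succ]
      rcases hx with hx | hx
      · exact ⟨by omega, hx.2⟩
      · exact ⟨by omega, hx.2⟩
    have h2 : Disjoint ((range (2 ^ k + 1)).filter Nat.Prime) (PB (2 ^ k)) := by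
      rw [Finset.disjoint_left]
      intro x hx hx'
      unfold PB at hx'
      rw [Finset.mem_filter, Finset.mem_range] at hx
      rw [Finset.mem_filter, Finset.mem_Ioc] at hx'
      omega
    calc _ ≤ ∑ p ∈ (range (2 ^ k + 1)).filter Nat.Prime, f p + ∑ p ∈ PB (2 ^ k), f p := by linarith
      _ = ∑ p ∈ (range (2 ^ k + 1)).filter Nat.Prime ∪ PB (2 ^ k), f p := (Finset.sum_union h2).symm
      _ ≤ _ := Finset.sum_le_sum_of_subset_of_nonneg h1 (fun _ _ _ => hf _)

/-- the densities of the blocks of primes have a divergent sum -/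
lemma many_blocks (hC : S_C) (K : ℝ) (k0 : ℕ) : ∃ k1 : ℕ, k0 ≤ k1 ∧
    K ≤ ∑ k ∈ Ico k0 k1, ((PB (2 ^ k)).card : ℝ) / (2 ^ k : ℕ) := by
  obtain ⟨y0, hy0⟩ := hC
  set k2 : ℕ := max k0 (max y0 1) with hk2
  have h1 : Tendsto (fun n => ∑ i ∈ range n, (1 / ((i : ℝ) + 1))) atTop atTop :=
    Real.tendsto_sum_range_one_div_nat_succ_atTop
  have h1' := h1.eventually (eventually_ge_atTop (2 * |K| + ∑ i ∈ range k2, (1 / ((i : ℝ) + 1))))
  obtain ⟨k3, hk3⟩ := (h1'.and (eventually_ge_atTop k2)).exists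
  refine ⟨k3 + 1, by omega, ?_⟩
  have h2 : ∀ k ∈ Ico (k2 + 1) (k3 + 1), 1 / (2 * (k : ℝ)) ≤ ((PB (2 ^ k)).card : ℝ) / (2 ^ k : ℕ) := by
    intro k hk
    rw [Finset.mem_Ico] at hk
    have hk1 : 1 ≤ k := by omega
    have hky : y0 ≤ 2 ^ k := by
      have : k < 2 ^ k := Nat.lt_two_pow_self
      omega
    have h3 := hy0 (2 ^ k) hky
    have h4 : Real.log ((2 ^ k : ℕ) : ℝ) = k * Real.log 2 := by
      push_cast
      rw [Real.log_pow]
    have h5 : (0:ℝ) < Real.log 2 := Real.log_pos (by norm_num)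
    have h6 : Real.log 2 < 1 := by
      have := Real.log_two_lt_d9
      linarith
    have h7 : (0:ℝ) < k := by exact_mod_cast hk1
    have h8 : (0:ℝ) < ((2 ^ k : ℕ) : ℝ) := by positivity
    rw [le_div_iff₀ h8]
    refine le_trans ?_ h3
    rw [h4, one_div, inv_mul_eq_div]
    gcongr
    nlinarith
  calc K ≤ |K| := le_abs_self _
    _ ≤ (1 / 2) * ∑ i ∈ Ico k2 k3, (1 / ((i : ℝ) + 1)) := by
        rw [Finset.sum_Ico_eq_sub _ hk3.2]
        linarith [hk3.1]
    _ = ∑ i ∈ Ico (k2 + 1) (k3 + 1), 1 / (2 * (i : ℝ)) := by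
        rw [← Finset.sum_Ico_add' (fun i : ℕ => 1 / (2 * (i : ℝ))) k2 k3 1, Finset.mul_sum]
        refine Finset.sum_congr rfl (fun i _ => ?_)
        push_cast
        field_simp
    _ ≤ ∑ k ∈ Ico (k2 + 1) (k3 + 1), ((PB (2 ^ k)).card : ℝ) / (2 ^ k : ℕ) := Finset.sum_le_sum h2
    _ ≤ ∑ k ∈ Ico k0 (k3 + 1), ((PB (2 ^ k)).card : ℝ) / (2 ^ k : ℕ) := by
        apply Finset.sum_le_sum_of_subset_of_nonneg
        · intro i hi
          rw [Finset.mem_Ico] at hi ⊢
          omega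
        · intro _ _ _
          positivity

end Pool.Agent.U237.LI
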