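import Pool.Agent.U237.LI.LB2

/-!
# Project LI: a good block of primes, and the sum for one prime
-/

set_option autoImplicit false
set_option maxHeartbeats 1000000

namespace Pool.Agent.U237.LI

open Finset Filter Topology MeasureTheory
open Pool.Agent.H807R2.Dav (ee norm_ee ee_add)
open Pool.Agent.W24.Katai (Mul1 cor)
open Pool.Agent.U237.NF.Lite (PB S_E S_C S_M ExpoSmall kx)

/-- the error term -/
noncomputable def DD (h : ℕ → ℂ) (L : ℕ) (θ : ℕ → ℝ) (n p : ℕ) : ℝ :=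
  ‖(p : ℂ) * ∑ i ∈ (range L).filter (fun i => p ∣ n + i), h (n + i) * ee ((i : ℝ) * θ n) - WS h L n (θ n)‖

lemma DD_nonneg (h : ℕ → ℂ) (L : ℕ) (θ : ℕ → ℝ) (n p : ℕ) : 0 ≤ DD h L θ n p := norm_nonneg _

lemma good_block (h : ℕ → ℂ) (hh : ∀ n, ‖h n‖ ≤ 1) (δ : ℝ) (hδ : 0 < δ) (k0 k1 : ℕ) (hk : k0 ≤ k1)
    (hK : 8 / δ ^ 2 ≤ ∑ k ∈ Ico k0 k1, ((PB (2 ^ k)).card : ℝ) / (2 ^ k : ℕ)) (L N : ℕ) (hL : 1 ≤ L)
    (hT : ∀ (n : ℕ) (g : ℕ → ℂ), (∀ i, ‖g i‖ ≤ 1) →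
      ∑ p ∈ (range (2 ^ k1 + 1)).filter Nat.Prime, (1 / (p : ℝ)) *
        ‖(p : ℂ) * ∑ i ∈ (range L).filter (fun i => p ∣ n + i), g i - ∑ i ∈ range L, g i‖ ^ 2 ≤ 4 * (L : ℝ) ^ 2)
    (θ : ℕ → ℝ) :
    ∃ k, k0 ≤ k ∧ k < k1 ∧ ∑ p ∈ PB (2 ^ k), ∑ n ∈ range N, DD h L θ n p ≤ δ * (PB (2 ^ k)).card * L * N := by
  have hL' : (0:ℝ) < L := by exact_mod_cast hL
  have h1 : ∀ n, ∑ k ∈ Ico k0 k1, ∑ p ∈ PB (2 ^ k), (1 / (p : ℝ)) * DD h L θ n p ^ 2 ≤ 4 * (L:ℝ) ^ 2 := by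
    intro n
    refine (blocks (fun p => (1 / (p : ℝ)) * DD h L θ n p ^ 2) (fun p => by positivity) k0 k1 hk).trans ?_
    refine le_trans (le_of_eq ?_) (hT n (fun i => h (n + i) * ee ((i : ℝ) * θ n)) ?_)
    · rfl
    · intro i
      rw [norm_mul, norm_ee, mul_one]
      exact hh _
  have h2 : ∑ k ∈ Ico k0 k1, ∑ n ∈ range N, ∑ p ∈ PB (2 ^ k), (1 / (p : ℝ)) * DD h L θ n p ^ 2 ≤
      ∑ k ∈ Ico k0 k1, (δ ^ 2 / 2 * (L:ℝ) ^ 2 * N) * (((PB (2 ^ k)).card : ℝ) / (2 ^ k : ℕ)) := by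
    rw [Finset.sum_comm, ← Finset.mul_sum]
    calc _ ≤ ∑ n ∈ range N, 4 * (L:ℝ) ^ 2 := Finset.sum_le_sum (fun n _ => h1 n)
      _ = 4 * (L:ℝ) ^ 2 * N := by rw [Finset.sum_const, Finset.card_range, nsmul_eq_mul]; ring
      _ = (δ ^ 2 / 2 * (L:ℝ) ^ 2 * N) * (8 / δ ^ 2) := by field_simp; ring
      _ ≤ _ := by gcongr
  have hne : (Ico k0 k1).Nonempty := by
    rw [Finset.nonempty_Ico]
    by_contra hlt
    push Not at hlt
    rw [Finset.Ico_eq_empty_of_le hlt, Finset.sum_empty] at hK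
    have : 0 < 8 / δ ^ 2 := by positivity
    linarith
  obtain ⟨k, hk', hk''⟩ := Finset.exists_le_of_sum_le hne h2
  rw [Finset.mem_Ico] at hk'
  refine ⟨k, hk'.1, hk'.2, ?_⟩
  have hy : (0:ℝ) < ((2 ^ k : ℕ) : ℝ) := by positivity
  have hpt : ∀ n ∈ range N, ∑ p ∈ PB (2 ^ k), DD h L θ n p ≤ δ / 2 * L * (PB (2 ^ k)).card +
      ((2 ^ k : ℕ) : ℝ) / (δ * L) * ∑ p ∈ PB (2 ^ k), (1 / (p : ℝ)) * DD h L θ n p ^ 2 := by
    intro n _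
    have h3 : ∀ p ∈ PB (2 ^ k), DD h L θ n p ≤ δ / 2 * L + ((2 ^ k : ℕ) : ℝ) / (δ * L) * ((1 / (p : ℝ)) * DD h L θ n p ^ 2) := by
      intro p hp
      unfold PB at hp
      rw [Finset.mem_filter, Finset.mem_Ioc] at hp
      have hp1 : (0:ℝ) < p := by exact_mod_cast hp.2.pos
      have hp2 : (p:ℝ) ≤ 2 * ((2 ^ k : ℕ) : ℝ) := by exact_mod_cast hp.1.2
      set D := DD h L θ n p with hDdef
      have h4 : D ^ 2 / (2 * (δ * L)) ≤ ((2 ^ k : ℕ) : ℝ) / (δ * L) * ((1 / (p : ℝ)) * D ^ 2) := by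
        have e1 : ((2 ^ k : ℕ) : ℝ) / (δ * L) * ((1 / (p : ℝ)) * D ^ 2) = (((2 ^ k : ℕ) : ℝ) / p) * (D ^ 2 / (δ * L)) := by
          field_simp
        have e2 : D ^ 2 / (2 * (δ * L)) = (1 / 2) * (D ^ 2 / (δ * L)) := by
          field_simp
        rw [e1, e2]
        have e3 : (1:ℝ) / 2 ≤ ((2 ^ k : ℕ) : ℝ) / p := by
          rw [div_le_div_iff₀ (by norm_num) hp1]
          linarith
        gcongr
      have h5 : δ / 2 * L + D ^ 2 / (2 * (δ * L)) - D = (D - δ * L) ^ 2 / (2 * (δ * L)) := by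
        field_simp
        ring
      have h6 : 0 ≤ (D - δ * L) ^ 2 / (2 * (δ * L)) := by positivity
      linarith
    refine (Finset.sum_le_sum h3).trans (le_of_eq ?_)
    rw [Finset.sum_add_distrib, Finset.sum_const, nsmul_eq_mul, Finset.mul_sum]
    ring
  rw [Finset.sum_comm]
  refine (Finset.sum_le_sum hpt).trans ?_
  rw [Finset.sum_add_distrib, Finset.sum_const, Finset.card_range, nsmul_eq_mul, ← Finset.mul_sum]
  have h7 : ((2 ^ k : ℕ) : ℝ) / (δ * L) * ∑ n ∈ range N, ∑ p ∈ PB (2 ^ k), (1 / (p : ℝ)) * DD h L θ n p ^ 2 ≤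
      ((2 ^ k : ℕ) : ℝ) / (δ * L) * ((δ ^ 2 / 2 * (L:ℝ) ^ 2 * N) * (((PB (2 ^ k)).card : ℝ) / (2 ^ k : ℕ))) := by
    gcongr
  refine (add_le_add le_rfl h7).trans (le_of_eq ?_)
  field_simp
  ring

open Classical in
lemma main_p {h : ℕ → ℂ} (hm : Mul1 h) (C : Set UnitAddCircle) (s δ : ℝ) (hs : 0 ≤ s) (hδ : 0 < δ) (c0 : ℝ)
    (hc0 : ((c0 : ℝ) : UnitAddCircle) ∈ C) (φ : C(UnitAddCircle, ℝ)) (h0 : ∀ x, 0 ≤ φ x) (h1 : ∀ x, φ x ≤ 1)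
    (hφC : ∀ x, 0 < φ x → x ∈ C) (p L N : ℕ) (hp : p.Prime)
    (hD : ∀ a : ℕ → ℝ, (∀ n, ((a n : ℝ) : UnitAddCircle) ∈ C) →
      ∑ n ∈ range (N / p + 2), ‖WS h (L / p) n (a n)‖ ≤ (s + δ) * ((L / p : ℕ) : ℝ) * ((N / p + 2 : ℕ) : ℝ))
    (hpN : 2 * (p:ℝ) ≤ δ * N) (hpL : 2 * (L:ℝ) / p + 5 * p ≤ δ * L) (θ : ℕ → ℝ) :
    ∑ n ∈ range N, φ (((p:ℝ) * θ n : ℝ) : UnitAddCircle) * ‖WS h L n (θ n)‖ ≤
      ((s + δ) * (1 + δ) + δ) * L * N + ∑ n ∈ range N, DD h L θ n p := by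
  have hp0 : (0:ℝ) < p := by exact_mod_cast hp.pos
  have hpt : ∀ n ∈ range N, φ (((p:ℝ) * θ n : ℝ) : UnitAddCircle) * ‖WS h L n (θ n)‖ ≤
      p * (if (((p : ℝ) * θ n : ℝ) : UnitAddCircle) ∈ C then ‖WS h (L / p) ((n + p - 1) / p) ((p : ℝ) * θ n)‖ else 0) +
        (δ * L + DD h L θ n p) := by
    intro n _
    have hD0 := DD_nonneg h L θ n p
    split_ifs with hC
    · have h2 : φ (((p:ℝ) * θ n : ℝ) : UnitAddCircle) * ‖WS h L n (θ n)‖ ≤ ‖WS h L n (θ n)‖ := by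
        have := norm_nonneg (WS h L n (θ n))
        have a1 := h1 (((p:ℝ) * θ n : ℝ) : UnitAddCircle)
        nlinarith
      have h3 : ‖WS h L n (θ n)‖ ≤ ‖(p : ℂ) * ∑ i ∈ (range L).filter (fun i => p ∣ n + i), h (n + i) * ee ((i : ℝ) * θ n)‖ +
          DD h L θ n p := by
        unfold DD
        have := norm_sub_norm_le (WS h L n (θ n))
          ((p : ℂ) * ∑ i ∈ (range L).filter (fun i => p ∣ n + i), h (n + i) * ee ((i : ℝ) * θ n))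
        rw [norm_sub_rev] at this
        linarith
      rw [norm_mul, Complex.norm_natCast] at h3
      have h4 := dil hm hp L n (θ n)
      have h5 : (p:ℝ) * (2 * (((L / p : ℕ) : ℝ) / p)) ≤ 2 * (L:ℝ) / p := by
        have e1 : (p:ℝ) * (2 * (((L / p : ℕ) : ℝ) / p)) = 2 * ((L / p : ℕ) : ℝ) := by
          field_simp
        rw [e1, mul_div_assoc]
        have : ((L / p : ℕ) : ℝ) ≤ (L:ℝ) / p := Nat.cast_div_le
        linarith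
      have h6 := mul_le_mul_of_nonneg_left h4 hp0.le
      linarith
    · have h2 : φ (((p:ℝ) * θ n : ℝ) : UnitAddCircle) = 0 := by
        have a1 := h0 (((p:ℝ) * θ n : ℝ) : UnitAddCircle)
        by_contra hne
        exact hC (hφC _ (lt_of_le_of_ne a1 (Ne.symm hne)))
      rw [h2, zero_mul, mul_zero]
      positivity
  refine (Finset.sum_le_sum hpt).trans ?_
  rw [Finset.sum_add_distrib, Finset.sum_add_distrib, ← Finset.mul_sum, Finset.sum_const, Finset.card_range,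
    nsmul_eq_mul]
  have h2 := dil_sum h C c0 hc0 p (L / p) N hp.pos _ hD θ
  have h3 := mul_le_mul_of_nonneg_left h2 hp0.le
  have h4 : (p:ℝ) * ((L / p : ℕ) : ℝ) ≤ L := by exact_mod_cast Nat.mul_div_le L p
  have h5 : (p:ℝ) * ((N / p + 2 : ℕ) : ℝ) ≤ (1 + δ) * N := by
    have : (p:ℝ) * ((N / p : ℕ) : ℝ) ≤ N := by exact_mod_cast Nat.mul_div_le N p
    push_cast
    linarith
  have h6 : (p:ℝ) * (p * ((s + δ) * ((L / p : ℕ) : ℝ) * ((N / p + 2 : ℕ) : ℝ))) ≤ (s + δ) * (L * ((1 + δ) * N)) := by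
    have e1 : (p:ℝ) * (p * ((s + δ) * ((L / p : ℕ) : ℝ) * ((N / p + 2 : ℕ) : ℝ))) =
        (s + δ) * (((p:ℝ) * ((L / p : ℕ) : ℝ)) * ((p:ℝ) * ((N / p + 2 : ℕ) : ℝ))) := by ring
    rw [e1]
    gcongr
  linarith

end Pool.Agent.U237.LI
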