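import Pool.Agent.U237.LI.LB3

/-!
# Project LI: the frequencies in one set bound all frequencies
-/

set_option autoImplicit false
set_option maxHeartbeats 1000000

namespace Pool.Agent.U237.LI

open Finset Filter Topology MeasureTheory
open Pool.Agent.H807R2.Dav (ee norm_ee ee_add)
open Pool.Agent.W24.Katai (Mul1 cor)
open Pool.Agent.U237.NF.Lite (PB S_E S_C S_M ExpoSmall kx)

open Classical in
/-- the frequencies in one set bound all frequencies -/
theorem arcs (hM : S_M) (hEQ : S_EQ) (hTK : S_TK) (hC : S_C) {h : ℕ → ℂ} (hm : Mul1 h) (hE : ExpoSmall h)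
    (C : Set UnitAddCircle) (s : ℝ) (hs : 0 ≤ s) (hU : UpperBd h C s) (φ : C(UnitAddCircle, ℝ)) (h0 : ∀ x, 0 ≤ φ x)
    (h1 : ∀ x, φ x ≤ 1) (hφC : ∀ x, 0 < φ x → x ∈ C) (v : ℝ) (hv : 0 < v) (hvdef : v = ∫ x, φ x) :
    UpperBd h Set.univ (s / v) := by
  -- a point of `C`
  obtain ⟨c0, hc0⟩ : ∃ c0 : ℝ, ((c0 : ℝ) : UnitAddCircle) ∈ C := by
    by_contra hne
    push Not at hne
    have h2 : ∀ x, φ x = 0 := by
      intro x
      obtain ⟨c, rfl⟩ := QuotientAddGroup.mk_surjective x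
      by_contra h3
      exact hne c (hφC _ (lt_of_le_of_ne (h0 _) (Ne.symm h3)))
    have h3 : v = 0 := by
      rw [hvdef]
      simp [h2]
    linarith
  intro ε hε
  -- choice of `δ`
  have hsv : 0 ≤ s / v := by positivity
  set Kc := s + 5 + s / v + ε / 2 with hKc
  have hKc0 : 0 < Kc := by positivity
  set δ := min 1 (min (v / 2) ((ε * v / 2) / Kc)) with hδdef
  have hδ : 0 < δ := lt_min one_pos (lt_min (by positivity) (by positivity))
  have hδ1 : δ ≤ 1 := min_le_left _ _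
  have hδ2 : δ ≤ v / 2 := (min_le_right _ _).trans (min_le_left _ _)
  have hδ3 : δ * Kc ≤ ε * v / 2 := by
    have : δ ≤ (ε * v / 2) / Kc := (min_le_right _ _).trans (min_le_right _ _)
    rwa [le_div_iff₀ hKc0] at this
  have hfin : (s + δ) * (1 + δ) + 2 * δ ≤ (s / v + ε / 2) * (v - δ) := by
    have e1 : (s / v) * v = s := by field_simp
    have e2 : (s / v + ε / 2) * (v - δ) = (s / v) * v + ε * v / 2 - δ * (s / v + ε / 2) := by ring
    have e3 : δ * Kc = δ * (s / v + ε / 2) + δ * s + 5 * δ := by rw [hKc]; ring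
    have e4 : δ * δ ≤ 1 * δ := by gcongr
    rw [e2, e1]
    nlinarith
  obtain ⟨B, hB⟩ := hEQ φ δ hδ
  obtain ⟨l, hl, H1, hH1⟩ := near hM h hm.1 hE (ε / 2) (by positivity) B
  obtain ⟨y0, hy0⟩ := hB l hl
  have hC' := hC
  obtain ⟨y1, hy1⟩ := hC'
  obtain ⟨q, hq⟩ := exists_nat_ge (4 / δ)
  set k0 := max y0 (max y1 (max 1 q)) with hk0
  have hk0a : y0 ≤ k0 := le_max_left _ _
  have hk0b : y1 ≤ k0 := (le_max_left _ _).trans (le_max_right _ _)
  have hk0c : 1 ≤ k0 := ((le_max_left _ _).trans (le_max_right _ _)).trans (le_max_right _ _)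
  have hk0d : q ≤ k0 := ((le_max_right _ _).trans (le_max_right _ _)).trans (le_max_right _ _)
  obtain ⟨k1, hk01, hk1⟩ := many_blocks hC (8 / δ ^ 2) k0
  obtain ⟨L0, hL0⟩ := hTK (2 ^ k1)
  obtain ⟨HC, hHC⟩ := hU δ hδ
  choose! NC hNC using hHC
  obtain ⟨L2, hL2⟩ := exists_nat_ge (10 * ((2 ^ k1 : ℕ) : ℝ) / δ)
  refine ⟨max H1 (max L0 (max ((HC + 1) * 2 ^ k1) (max L2 1))), fun L hL => ?_⟩
  have hLH1 : H1 ≤ L := (le_max_left _ _).trans hL
  have hL' := (le_max_right _ _).trans hL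
  have hLL0 : L0 ≤ L := (le_max_left _ _).trans hL'
  have hL'' := (le_max_right _ _).trans hL'
  have hLHC : (HC + 1) * 2 ^ k1 ≤ L := (le_max_left _ _).trans hL''
  have hL''' := (le_max_right _ _).trans hL''
  have hLL2 : L2 ≤ L := (le_max_left _ _).trans hL'''
  have hL1 : 1 ≤ L := (le_max_right _ _).trans hL'''
  obtain ⟨N1, hN1⟩ := hH1 L hLH1
  obtain ⟨N2, hN2⟩ := exists_nat_ge (2 * ((2 ^ k1 : ℕ) : ℝ) / δ)
  refine ⟨max N1 (max N2 ((∑ L' ∈ range (L + 1), NC L') * 2 ^ k1)), fun N hN a _ => ?_⟩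
  have hNN1 : N1 ≤ N := (le_max_left _ _).trans hN
  have hN' := (le_max_right _ _).trans hN
  have hNN2 : N2 ≤ N := (le_max_left _ _).trans hN'
  have hNN3 : (∑ L' ∈ range (L + 1), NC L') * 2 ^ k1 ≤ N := (le_max_right _ _).trans hN'
  obtain ⟨k, hk2, hk3, hk4⟩ := good_block h hm.1 δ hδ k0 k1 hk01 hk1 L N hL1 (fun n g hg => hL0 L hLL0 n g hg) a
  have hkk : k < 2 ^ k := Nat.lt_two_pow_self
  have h2k : 2 * 2 ^ k ≤ 2 ^ k1 := by
    rw [← pow_succ']
    exact Nat.pow_le_pow_right (by norm_num) hk3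
  have hPpos : (0:ℝ) < (PB (2 ^ k)).card := by
    refine lt_of_lt_of_le ?_ (hy1 (2 ^ k) (by omega))
    have h2 : 0 < Real.log ((2 ^ k : ℕ) : ℝ) := by
      apply Real.log_pos
      have : 1 < 2 ^ k := by omega
      exact_mod_cast this
    positivity
  have hL'pos : (0:ℝ) < L := by exact_mod_cast hL1
  have hmain : ∀ p ∈ PB (2 ^ k), ∑ n ∈ range N, φ (((p:ℝ) * a n : ℝ) : UnitAddCircle) * ‖WS h L n (a n)‖ ≤
      ((s + δ) * (1 + δ) + δ) * L * N + ∑ n ∈ range N, DD h L a n p := by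
    intro p hp
    unfold PB at hp
    rw [Finset.mem_filter, Finset.mem_Ioc] at hp
    obtain ⟨⟨hp1, hp2⟩, hpp⟩ := hp
    have hp3 : p ≤ 2 ^ k1 := hp2.trans h2k
    have hp0 : 0 < p := hpp.pos
    have hp0' : (0:ℝ) < p := by exact_mod_cast hp0
    have hp3' : (p:ℝ) ≤ ((2 ^ k1 : ℕ) : ℝ) := by exact_mod_cast hp3
    refine main_p hm C s δ hs hδ c0 hc0 φ h0 h1 hφC p L N hpp (fun a' ha' => hNC (L / p) ?_ (N / p + 2) ?_ a' ha') ?_ ?_ a
    · rw [Nat.le_div_iff_mul_le hp0]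
      calc HC * p ≤ (HC + 1) * 2 ^ k1 := Nat.mul_le_mul (Nat.le_succ _) hp3
        _ ≤ L := hLHC
    · have h2 : NC (L / p) ≤ ∑ L' ∈ range (L + 1), NC L' := by
        apply Finset.single_le_sum (f := NC) (fun _ _ => Nat.zero_le _)
        rw [Finset.mem_range]
        have : L / p ≤ L := Nat.div_le_self _ _
        omega
      have h3 : ∑ L' ∈ range (L + 1), NC L' ≤ N / p := by
        rw [Nat.le_div_iff_mul_le hp0]
        exact (Nat.mul_le_mul_left _ hp3).trans hNN3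
      omega
    · have h2 : 2 * ((2 ^ k1 : ℕ) : ℝ) / δ ≤ N := hN2.trans (by exact_mod_cast hNN2)
      rw [div_le_iff₀ hδ] at h2
      linarith
    · have h2 : 10 * ((2 ^ k1 : ℕ) : ℝ) / δ ≤ L := hL2.trans (by exact_mod_cast hLL2)
      rw [div_le_iff₀ hδ] at h2
      have h3 : 4 / δ ≤ (p:ℝ) := by
        refine hq.trans ?_
        have : q ≤ p := by omega
        exact_mod_cast this
      have h4 : 2 * (L:ℝ) / p ≤ δ * L / 2 := by
        rw [div_le_iff₀ hδ] at h3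
        rw [div_le_iff₀ hp0']
        nlinarith
      linarith
  have hfar : ((v - δ) * (PB (2 ^ k)).card) * ∑ n ∈ (range N).filter (fun n => Far B l (a n)), ‖WS h L n (a n)‖ ≤
      (PB (2 ^ k)).card * (((s + δ) * (1 + δ) + 2 * δ) * L * N) := by
    rw [Finset.mul_sum]
    calc ∑ n ∈ (range N).filter (fun n => Far B l (a n)), ((v - δ) * (PB (2 ^ k)).card) * ‖WS h L n (a n)‖
        ≤ ∑ n ∈ (range N).filter (fun n => Far B l (a n)),
          (∑ p ∈ PB (2 ^ k), φ (((p:ℝ) * a n : ℝ) : UnitAddCircle)) * ‖WS h L n (a n)‖ := by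
          refine Finset.sum_le_sum (fun n hn => ?_)
          rw [Finset.mem_filter] at hn
          have h2 := hy0 (2 ^ k) (by omega) (a n) hn.2
          rw [abs_le, ← hvdef] at h2
          gcongr
          linarith [h2.1]
      _ ≤ ∑ n ∈ range N, (∑ p ∈ PB (2 ^ k), φ (((p:ℝ) * a n : ℝ) : UnitAddCircle)) * ‖WS h L n (a n)‖ := by
          apply Finset.sum_le_sum_of_subset_of_nonneg (Finset.filter_subset _ _)
          intro n _ _
          exact mul_nonneg (Finset.sum_nonneg (fun _ _ => h0 _)) (norm_nonneg _)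
      _ = ∑ p ∈ PB (2 ^ k), ∑ n ∈ range N, φ (((p:ℝ) * a n : ℝ) : UnitAddCircle) * ‖WS h L n (a n)‖ := by
          rw [Finset.sum_comm]
          refine Finset.sum_congr rfl (fun n _ => ?_)
          rw [Finset.sum_mul]
      _ ≤ ∑ p ∈ PB (2 ^ k), (((s + δ) * (1 + δ) + δ) * L * N + ∑ n ∈ range N, DD h L a n p) := Finset.sum_le_sum hmain
      _ = (PB (2 ^ k)).card * (((s + δ) * (1 + δ) + δ) * L * N) + ∑ p ∈ PB (2 ^ k), ∑ n ∈ range N, DD h L a n p := by
          rw [Finset.sum_add_distrib, Finset.sum_const, nsmul_eq_mul]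
      _ ≤ (PB (2 ^ k)).card * (((s + δ) * (1 + δ) + δ) * L * N) + δ * (PB (2 ^ k)).card * L * N := by linarith
      _ = _ := by ring
  have hvδ : 0 < v - δ := by linarith
  have hfar2 : ∑ n ∈ (range N).filter (fun n => Far B l (a n)), ‖WS h L n (a n)‖ ≤ (s / v + ε / 2) * L * N := by
    set SF := ∑ n ∈ (range N).filter (fun n => Far B l (a n)), ‖WS h L n (a n)‖ with hSF
    have h2 : (PB (2 ^ k)).card * ((v - δ) * SF) ≤ (PB (2 ^ k)).card * (((s + δ) * (1 + δ) + 2 * δ) * L * N) := by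
      refine le_trans (le_of_eq ?_) hfar
      ring
    have h3 : (v - δ) * SF ≤ ((s + δ) * (1 + δ) + 2 * δ) * L * N := le_of_mul_le_mul_left h2 hPpos
    have h4 : ((s + δ) * (1 + δ) + 2 * δ) * L * N ≤ ((s / v + ε / 2) * (v - δ)) * L * N := by gcongr
    have h5 : (v - δ) * SF ≤ (v - δ) * ((s / v + ε / 2) * L * N) := by
      refine (h3.trans h4).trans (le_of_eq ?_)
      ring
    exact le_of_mul_le_mul_left h5 hvδ
  have hnear := hN1 N hNN1 a
  have hsplit := Finset.sum_filter_add_sum_filter_not (range N) (fun n => Far B l (a n)) (fun n => ‖WS h L n (a n)‖)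
  calc ∑ n ∈ range N, ‖WS h L n (a n)‖ =
      ∑ n ∈ (range N).filter (fun n => Far B l (a n)), ‖WS h L n (a n)‖ +
        ∑ n ∈ (range N).filter (fun n => ¬ Far B l (a n)), ‖WS h L n (a n)‖ := hsplit.symm
    _ ≤ (s / v + ε / 2) * L * N + ε / 2 * L * N := add_le_add hfar2 hnear
    _ = (s / v + ε) * L * N := by ring

end Pool.Agent.U237.LI
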