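import Pool.Agent.U237.LI.Stm
import Pool.Agent.U147.NF.F

/-!
# Project LI: few windows with frequencies near rationals with small denominators
-/

set_option autoImplicit false
set_option maxHeartbeats 1000000

namespace Pool.Agent.U237.LI

open Finset Filter Topology MeasureTheory
open Pool.Agent.H807R2.Dav (ee norm_ee)
open Pool.Agent.W24.Katai (Mul1 cor)
open Pool.Agent.U237.NF.Lite (PB S_E S_C S_M ExpoSmall kx)
open Pool.Agent.U147.NF.F (SW SW_shift sum_shifts)

/-- the sum over the window starting at `n` with frequency `x` -/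
noncomputable def WS (h : ℕ → ℂ) (H n : ℕ) (x : ℝ) : ℂ := ∑ i ∈ range H, h (n + i) * ee ((i : ℝ) * x)

lemma norm_WS {h : ℕ → ℂ} (hh : ∀ n, ‖h n‖ ≤ 1) (H n : ℕ) (x : ℝ) : ‖WS h H n x‖ ≤ H := by
  unfold WS
  refine (norm_sum_le _ _).trans ?_
  calc ∑ i ∈ range H, ‖h (n + i) * ee ((i : ℝ) * x)‖ ≤ ∑ _i ∈ range H, (1:ℝ) := by
        refine Finset.sum_le_sum (fun i _ => ?_)
        rw [norm_mul, norm_ee, mul_one]
        exact hh _
    _ = H := by simp

lemma not_far {B : ℕ} {l x : ℝ} (h : ¬ Far B l x) : ∃ b : ℕ, 1 ≤ b ∧ b ≤ B ∧ ∃ a : ℤ, |x - a / b| ≤ l := by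
  unfold Far at h
  push Not at h
  exact h

lemma card_filter_inst {α : Type*} (s : Finset α) (p : α → Prop) (i j : DecidablePred p) :
    (@Finset.filter α p i s).card = (@Finset.filter α p j s).card := by
  have : i = j := Subsingleton.elim _ _
  rw [this]

open Classical in
lemma near (hM : S_M) (h : ℕ → ℂ) (hh : ∀ n, ‖h n‖ ≤ 1) (hE : ExpoSmall h) (ε : ℝ) (hε : 0 < ε) (B : ℕ) :
    ∃ l : ℝ, 0 < l ∧ ∃ H0 : ℕ, ∀ H : ℕ, H0 ≤ H → ∃ N0 : ℕ, ∀ N : ℕ, N0 ≤ N → ∀ a : ℕ → ℝ,
      ∑ n ∈ (range N).filter (fun n => ¬ Far B l (a n)), ‖WS h H n (a n)‖ ≤ ε * H * N := by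
  obtain ⟨l, hl, H1, h1⟩ := hM h hh hE (ε / 4) (by positivity) (ε / 4) (by positivity) B
  refine ⟨l, hl, max H1 1, fun H hH => ?_⟩
  have hH1 : 1 ≤ H := (le_max_right _ _).trans hH
  have hH' : (0:ℝ) < H := by exact_mod_cast hH1
  obtain ⟨N1, hN1⟩ := h1 H ((le_max_left _ _).trans hH)
  obtain ⟨N2, hN2⟩ := exists_nat_ge ((ε * H + 4) / (2 * ε))
  refine ⟨max N1 (max N2 1), fun N hN a => ?_⟩
  have hNN1 : N1 ≤ N := (le_max_left _ _).trans hN
  have hNN2 : N2 ≤ N := (le_max_left _ _).trans ((le_max_right _ _).trans hN)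
  have hNN3 : 1 ≤ N := (le_max_right _ _).trans ((le_max_right _ _).trans hN)
  set bad : ℕ → Prop := fun n => ¬ Far B l (a n) ∧ ε / 4 * H ≤ ‖WS h H n (a n)‖ with hbad
  -- the bad places in one class
  have hs : ∀ s ∈ range H, (H : ℝ) * (((Ico 1 N).filter (fun n => H ∣ n + s ∧ bad n)).card : ℝ) ≤ ε / 4 * (N + H) := by
    intro s hs
    rw [Finset.mem_range] at hs
    set al : ℕ → ℝ := fun k => a (k * H - s) with hal
    set G : ℕ → Prop := fun k => 1 ≤ k ∧ ¬ Far B l (al k) ∧ ε / 4 * H ≤ ‖SW h H s al k‖ with hG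
    have h2 := hN1 (N + H) (hNN1.trans (Nat.le_add_right _ _)) s hs al G (by
      rintro k ⟨h3, h4, h5⟩
      exact ⟨h3, not_far h4, h5⟩)
    have h3 : ((((Ico 1 N).filter (fun n => H ∣ n + s ∧ bad n)) ×ˢ range H).card) ≤
        ((range (N + H)).filter (fun n => G (kx H s n))).card := by
      apply Finset.card_le_card_of_injOn (fun x => x.1 + x.2)
      · rintro ⟨n, i⟩ hx
        simp only [Finset.coe_product, Set.mem_prod, Finset.mem_coe, Finset.mem_filter, Finset.mem_Ico,
          Finset.mem_range] at hx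
        obtain ⟨⟨⟨hn1, hn2⟩, hn3, hn4⟩, hi⟩ := hx
        obtain ⟨k, hk⟩ := hn3
        have hk1 : 1 ≤ k := by
          rcases Nat.eq_zero_or_pos k with h | h
          · rw [h, mul_zero] at hk; omega
          · exact h
        have hkx : kx H s (n + i) = k := by
          unfold kx
          have : n + i + s = i + H * k := by omega
          rw [this, Nat.add_mul_div_left _ _ (by omega), Nat.div_eq_of_lt hi, zero_add]
        have hkn : k * H - s = n := by
          have : k * H = H * k := mul_comm _ _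
          omega
        simp only [Finset.coe_filter, Set.mem_ofPred_eq, Finset.mem_range]
        refine ⟨by omega, ?_⟩
        rw [hkx]
        refine ⟨hk1, ?_, ?_⟩
        · simp only [hal]; rw [hkn]; exact hn4.1
        · rw [SW_shift]
          simp only [hal]
          rw [hkn]
          exact hn4.2
      · rintro ⟨n, i⟩ hx ⟨n', i'⟩ hx' heq
        simp only [Finset.coe_product, Set.mem_prod, Finset.mem_coe, Finset.mem_filter, Finset.mem_Ico,
          Finset.mem_range] at hx hx'
        obtain ⟨⟨_, ⟨k, hk⟩, _⟩, hi⟩ := hx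
        obtain ⟨⟨_, ⟨k', hk'⟩, _⟩, hi'⟩ := hx'
        have heq' : n + i = n' + i' := heq
        have h4 : i + H * k = i' + H * k' := by omega
        have h5 : (i + H * k) / H = (i' + H * k') / H := by rw [h4]
        rw [Nat.add_mul_div_left _ _ (by omega), Nat.div_eq_of_lt hi, zero_add,
          Nat.add_mul_div_left _ _ (by omega), Nat.div_eq_of_lt hi', zero_add] at h5
        subst h5
        have : i = i' := by omega
        subst this
        simp only [Prod.mk.injEq, and_true]
        omega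
    rw [Finset.card_product, Finset.card_range] at h3
    have h4 : ((((Ico 1 N).filter (fun n => H ∣ n + s ∧ bad n)).card : ℝ) * H) ≤ ε / 4 * ((N + H : ℕ) : ℝ) := by
      refine le_trans ?_ h2
      have h3' := (Nat.cast_le (α := ℝ)).2 h3
      rw [Nat.cast_mul] at h3'
      refine h3'.trans (le_of_eq ?_)
      exact congrArg Nat.cast (card_filter_inst _ _ _ _)
    push_cast at h4
    linarith
  have hcard : (((Ico 1 N).filter bad).card : ℝ) ≤ ε / 4 * (N + H) := by
    have h2 := sum_shifts (fun n => if bad n then (1:ℝ) else 0) N H hH1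
    have h3 : (((Ico 1 N).filter bad).card : ℝ) = ∑ n ∈ Ico 1 N, (if bad n then (1:ℝ) else 0) := by
      rw [Finset.sum_boole]
    have h4 : ∀ s ∈ range H, ∑ n ∈ (Ico 1 N).filter (fun n => H ∣ n + s), (if bad n then (1:ℝ) else 0) ≤
        ε / 4 * (N + H) / H := by
      intro s hs'
      rw [Finset.sum_boole, Finset.filter_filter, le_div_iff₀ hH', mul_comm]
      exact hs s hs'
    rw [h3, h2]
    refine (Finset.sum_le_sum h4).trans ?_
    rw [Finset.sum_const, Finset.card_range, nsmul_eq_mul]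
    field_simp
    exact le_refl _
  have h5 : ∑ n ∈ (range N).filter (fun n => ¬ Far B l (a n)), ‖WS h H n (a n)‖ ≤
      ∑ n ∈ range N, (ε / 4 * H + ((if n = 0 then (H:ℝ) else 0) + if n ∈ (Ico 1 N).filter bad then (H:ℝ) else 0)) := by
    rw [Finset.sum_filter]
    apply Finset.sum_le_sum
    intro n hn
    rw [Finset.mem_range] at hn
    have h6 : (0:ℝ) ≤ ε / 4 * H := by positivity
    have h7 : (0:ℝ) ≤ if n = 0 then (H:ℝ) else 0 := by split_ifs <;> positivity
    have h8 : (0:ℝ) ≤ if n ∈ (Ico 1 N).filter bad then (H:ℝ) else 0 := by split_ifs <;> positivity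
    by_cases h9 : ¬ Far B l (a n)
    · rw [if_pos h9]
      have hW := norm_WS hh H n (a n)
      by_cases h10 : n = 0
      · rw [if_pos h10] at h7 ⊢
        linarith
      · by_cases h11 : n ∈ (Ico 1 N).filter bad
        · rw [if_pos h11] at h8 ⊢
          linarith
        · have h12 : ¬ (ε / 4 * H ≤ ‖WS h H n (a n)‖) := by
            intro h13
            apply h11
            rw [Finset.mem_filter, Finset.mem_Ico]
            exact ⟨⟨by omega, hn⟩, h9, h13⟩
          push Not at h12
          linarith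
    · rw [if_neg h9]
      linarith
  refine h5.trans ?_
  rw [Finset.sum_add_distrib, Finset.sum_add_distrib, Finset.sum_const, Finset.card_range, nsmul_eq_mul]
  have h6 : ∑ n ∈ range N, (if n = 0 then (H:ℝ) else 0) ≤ H := by
    rw [Finset.sum_ite_eq']
    split_ifs
    · exact le_rfl
    · exact hH'.le
  have h7 : ∑ n ∈ range N, (if n ∈ (Ico 1 N).filter bad then (H:ℝ) else 0) ≤ H * (ε / 4 * (N + H)) := by
    rw [← Finset.sum_filter, Finset.sum_const, nsmul_eq_mul, mul_comm]
    gcongr
    refine le_trans ?_ hcard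
    have : (range N).filter (fun n => n ∈ (Ico 1 N).filter bad) ⊆ (Ico 1 N).filter bad := by
      intro n hn
      rw [Finset.mem_filter] at hn
      exact hn.2
    exact_mod_cast Finset.card_le_card this
  have h8 : (ε * H + 4) / (2 * ε) ≤ N := hN2.trans (by exact_mod_cast hNN2)
  rw [div_le_iff₀ (by positivity)] at h8
  have h9 : (H:ℝ) * (ε * H + 4) ≤ H * (N * (2 * ε)) := by gcongr
  nlinarith

end Pool.Agent.U237.LI
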