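import Pool.Agent.U237.LI.LB4

/-!
# Project LI: explicit constants, and sets with interior
-/

set_option autoImplicit false
set_option maxHeartbeats 1000000

namespace Pool.Agent.U237.LI

open Finset Filter Topology MeasureTheory
open Pool.Agent.H807R2.Dav (ee norm_ee ee_add)
open Pool.Agent.W24.Katai (Mul1 cor)
open Pool.Agent.U237.NF.Lite (PB S_E S_C S_M ExpoSmall kx)

/-- the norm of a sum with real coefficients -/
lemma norm_le_cos (f : ℕ → ℝ) (H : ℕ) (θ : ℝ) : ∃ t : ℝ, ‖∑ i ∈ range H, (f i : ℂ) * ee ((i : ℝ) * θ)‖ ≤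
    ∑ i ∈ range H, |f i| * |Real.cos (2 * Real.pi * ((i : ℝ) * θ + t))| := by
  set Z := ∑ i ∈ range H, (f i : ℂ) * ee ((i : ℝ) * θ) with hZ
  set ψ := Complex.arg Z with hψ
  refine ⟨-ψ / (2 * Real.pi), ?_⟩
  have h1 : (‖Z‖ : ℂ) = Z * Complex.exp (-(ψ : ℂ) * Complex.I) := by
    have h2 := Complex.norm_mul_exp_arg_mul_I Z
    calc (‖Z‖ : ℂ) = (‖Z‖ : ℂ) * (Complex.exp (ψ * Complex.I) * Complex.exp (-(ψ : ℂ) * Complex.I)) := by
          rw [← Complex.exp_add]
          simp
      _ = ((‖Z‖ : ℂ) * Complex.exp (ψ * Complex.I)) * Complex.exp (-(ψ : ℂ) * Complex.I) := by ring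
      _ = _ := by rw [h2]
  have h3 : ‖Z‖ = ∑ i ∈ range H, f i * Real.cos (2 * Real.pi * ((i : ℝ) * θ + -ψ / (2 * Real.pi))) := by
    have h4 : ‖Z‖ = (Z * Complex.exp (-(ψ : ℂ) * Complex.I)).re := by
      rw [← h1, Complex.ofReal_re]
    rw [h4, hZ, Finset.sum_mul, Complex.re_sum]
    refine Finset.sum_congr rfl (fun i _ => ?_)
    have h5 : (f i : ℂ) * ee ((i : ℝ) * θ) * Complex.exp (-(ψ : ℂ) * Complex.I) =
        (f i : ℂ) * Complex.exp (((2 * Real.pi * ((i : ℝ) * θ + -ψ / (2 * Real.pi)) : ℝ) : ℂ) * Complex.I) := by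
      unfold Pool.Agent.H807R2.Dav.ee
      rw [mul_assoc, ← Complex.exp_add]
      congr 2
      have hpi : (Real.pi : ℂ) ≠ 0 := by exact_mod_cast Real.pi_ne_zero
      push_cast
      field_simp
    rw [h5, Complex.re_ofReal_mul, Complex.exp_ofReal_mul_I_re]
  rw [h3]
  refine Finset.sum_le_sum (fun i _ => ?_)
  rw [← abs_mul]
  exact le_abs_self _

open Classical in
/-- the explicit constant for functions bounded by one -/
theorem ub_cos (hM : S_M) (hCos : S_COS) {h : ℕ → ℤ} (hh : ∀ n, |(h n : ℝ)| ≤ 1) (hE : ExpoSmall (fun n => (h n : ℂ))) :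
    UpperBd (fun n => (h n : ℂ)) Set.univ (2 / Real.pi) := by
  intro ε hε
  have hh' : ∀ n, ‖(fun n => (h n : ℂ)) n‖ ≤ 1 := by
    intro n
    have := hh n
    simpa using this
  obtain ⟨B, hB⟩ := hCos (ε / 2) (by positivity)
  obtain ⟨l, hl, H1, hH1⟩ := near hM (fun n => (h n : ℂ)) hh' hE (ε / 2) (by positivity) B
  obtain ⟨H2, hH2⟩ := hB l hl
  refine ⟨max H1 H2, fun H hH => ?_⟩
  obtain ⟨N1, hN1⟩ := hH1 H ((le_max_left _ _).trans hH)
  refine ⟨N1, fun N hN a _ => ?_⟩
  have hnear := hN1 N hN a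
  have hsplit := Finset.sum_filter_add_sum_filter_not (range N) (fun n => Far B l (a n))
    (fun n => ‖WS (fun n => (h n : ℂ)) H n (a n)‖)
  have hfar : ∑ n ∈ (range N).filter (fun n => Far B l (a n)), ‖WS (fun n => (h n : ℂ)) H n (a n)‖ ≤
      (2 / Real.pi + ε / 2) * H * N := by
    have h1 : ∀ n ∈ (range N).filter (fun n => Far B l (a n)), ‖WS (fun n => (h n : ℂ)) H n (a n)‖ ≤
        (2 / Real.pi + ε / 2) * H := by
      intro n hn
      rw [Finset.mem_filter] at hn
      obtain ⟨t, ht⟩ := norm_le_cos (fun i => (h (n + i) : ℝ)) H (a n)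
      have h2 := hH2 H ((le_max_right _ _).trans hH) (a n) hn.2 t
      unfold WS
      push_cast at ht
      refine ht.trans (le_trans (Finset.sum_le_sum (fun i _ => ?_)) h2)
      have h3 := hh (n + i)
      have h4 := abs_nonneg (Real.cos (2 * Real.pi * ((i : ℝ) * a n + t)))
      nlinarith
    refine (Finset.sum_le_sum h1).trans ?_
    rw [Finset.sum_const, nsmul_eq_mul]
    have h5 : (((range N).filter (fun n => Far B l (a n))).card : ℝ) ≤ N := by
      have := Finset.card_le_card (Finset.filter_subset (fun n => Far B l (a n)) (range N))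
      rw [Finset.card_range] at this
      exact_mod_cast this
    have h6 : 0 ≤ (2 / Real.pi + ε / 2) * H := by
      have := Real.pi_pos
      positivity
    nlinarith
  calc ∑ n ∈ range N, ‖WS (fun n => (h n : ℂ)) H n (a n)‖ = _ := hsplit.symm
    _ ≤ (2 / Real.pi + ε / 2) * H * N + ε / 2 * H * N := add_le_add hfar hnear
    _ = (2 / Real.pi + ε) * H * N := by ring

open Classical in
/-- the explicit constant for the Möbius function -/
theorem ub_mu (hM : S_M) (hMu : S_MU) (hE : ExpoSmall (fun n => ((ArithmeticFunction.moebius n : ℤ) : ℂ))) :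
    UpperBd (fun n => ((ArithmeticFunction.moebius n : ℤ) : ℂ)) Set.univ (12 / Real.pi ^ 3) := by
  intro ε hε
  have hh' : ∀ n, ‖(fun n => ((ArithmeticFunction.moebius n : ℤ) : ℂ)) n‖ ≤ 1 := by
    intro n
    beta_reduce
    rw [Complex.norm_intCast]
    exact_mod_cast ArithmeticFunction.abs_moebius_le_one
  obtain ⟨B, hB⟩ := hMu (ε / 2) (by positivity)
  obtain ⟨l, hl, H1, hH1⟩ := near hM (fun n => ((ArithmeticFunction.moebius n : ℤ) : ℂ)) hh' hE (ε / 2) (by positivity) B
  obtain ⟨H2, hH2⟩ := hB l hl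
  refine ⟨max H1 H2, fun H hH => ?_⟩
  obtain ⟨N1, hN1⟩ := hH1 H ((le_max_left _ _).trans hH)
  obtain ⟨N2, hN2⟩ := hH2 H ((le_max_right _ _).trans hH)
  refine ⟨max N1 N2, fun N hN a _ => ?_⟩
  have hnear := hN1 N ((le_max_left _ _).trans hN) a
  have hsplit := Finset.sum_filter_add_sum_filter_not (range N) (fun n => Far B l (a n))
    (fun n => ‖WS (fun n => ((ArithmeticFunction.moebius n : ℤ) : ℂ)) H n (a n)‖)
  choose t ht using fun n => norm_le_cos (fun i => ((ArithmeticFunction.moebius (n + i) : ℤ) : ℝ)) H (a n)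
  have hfar : ∑ n ∈ (range N).filter (fun n => Far B l (a n)),
      ‖WS (fun n => ((ArithmeticFunction.moebius n : ℤ) : ℂ)) H n (a n)‖ ≤ (12 / Real.pi ^ 3 + ε / 2) * H * N := by
    refine le_trans (Finset.sum_le_sum (fun n _ => ?_)) (hN2 N ((le_max_right _ _).trans hN) a t)
    unfold WS
    have h1 := ht n
    push_cast at h1
    refine h1.trans ?_
    rw [Finset.sum_filter]
    refine Finset.sum_le_sum (fun i _ => ?_)
    split_ifs with h2
    · have h3 : |((ArithmeticFunction.moebius (n + i) : ℤ) : ℝ)| ≤ 1 := by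
        exact_mod_cast ArithmeticFunction.abs_moebius_le_one
      have h4 := abs_nonneg (Real.cos (2 * Real.pi * ((i : ℝ) * a n + t n)))
      nlinarith
    · rw [ArithmeticFunction.moebius_eq_zero_of_not_squarefree h2]
      simp
  calc ∑ n ∈ range N, ‖WS (fun n => ((ArithmeticFunction.moebius n : ℤ) : ℂ)) H n (a n)‖ = _ := hsplit.symm
    _ ≤ (12 / Real.pi ^ 3 + ε / 2) * H * N + ε / 2 * H * N := add_le_add hfar hnear
    _ = (12 / Real.pi ^ 3 + ε) * H * N := by ring

lemma UpperBd.mono {h : ℕ → ℂ} {C : Set UnitAddCircle} {s t : ℝ} (hU : UpperBd h C s) (hst : s ≤ t) : UpperBd h C t := by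
  intro ε hε
  obtain ⟨H0, hH0⟩ := hU ε hε
  refine ⟨H0, fun H hH => ?_⟩
  obtain ⟨N0, hN0⟩ := hH0 H hH
  refine ⟨N0, fun N hN a ha => (hN0 N hN a ha).trans ?_⟩
  gcongr

lemma UpperBd.of_lt {h : ℕ → ℂ} {C : Set UnitAddCircle} {s : ℝ} (hU : ∀ t, s < t → UpperBd h C t) : UpperBd h C s := by
  intro ε hε
  obtain ⟨H0, hH0⟩ := hU (s + ε / 2) (by linarith) (ε / 2) (by positivity)
  refine ⟨H0, fun H hH => ?_⟩
  obtain ⟨N0, hN0⟩ := hH0 H hH
  refine ⟨N0, fun N hN a ha => (hN0 N hN a ha).trans (le_of_eq ?_)⟩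
  ring

/-- sets with interior -/
theorem arcs_int (hM : S_M) (hEQ : S_EQ) (hTK : S_TK) (hC : S_C) {h : ℕ → ℂ} (hm : Mul1 h) (hE : ExpoSmall h)
    (C : Set UnitAddCircle) (s : ℝ) (hs : 0 ≤ s) (hU : UpperBd h C s) (hv : 0 < volume (interior C)) :
    UpperBd h Set.univ (s / volume.real (interior C)) := by
  set v := volume.real (interior C) with hvdef
  have hv0 : 0 < v := by
    rw [hvdef, Measure.real]
    exact ENNReal.toReal_pos hv.ne' (measure_ne_top _ _)
  -- approximations
  have key : ∀ w : ℝ, 0 < w → w < v → UpperBd h Set.univ (s / w) := by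
    intro w hw hwv
    have h1 : ENNReal.ofReal w < volume (interior C) := by
      rw [← ENNReal.ofReal_toReal (measure_ne_top volume (interior C))]
      exact (ENNReal.ofReal_lt_ofReal_iff hv0).2 hwv
    obtain ⟨K, hKU, hK, hKw⟩ := isOpen_interior.exists_lt_isCompact h1
    obtain ⟨φ, hφ1, hφ0, _, hφ01⟩ := exists_continuous_one_zero_of_isCompact hK
      (isOpen_interior (s := C)).isClosed_compl (Set.disjoint_compl_right_iff_subset.2 hKU)
    have hint : Integrable (fun x => φ x) (volume : Measure UnitAddCircle) :=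
      φ.continuous.integrable_of_hasCompactSupport (HasCompactSupport.of_compactSpace _)
    have h2 : volume.real K ≤ ∫ x, φ x := by
      rw [← integral_indicator_one hK.measurableSet]
      refine integral_mono ?_ hint ?_
      · exact (integrable_indicator_iff hK.measurableSet).2 (integrable_const (1:ℝ)).integrableOn
      · intro x
        by_cases hx : x ∈ K
        · rw [Set.indicator_of_mem hx]
          exact (hφ1 hx).ge
        · rw [Set.indicator_of_notMem hx]
          exact (hφ01 x).1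
    have h3 : w < volume.real K := by
      rw [Measure.real]
      exact (ENNReal.ofReal_lt_iff_lt_toReal hw.le (measure_ne_top _ _)).1 hKw
    have h4 : w ≤ ∫ x, φ x := by linarith
    refine (arcs hM hEQ hTK hC hm hE C s hs hU φ (fun x => (hφ01 x).1) (fun x => (hφ01 x).2) ?_ (∫ x, φ x)
      (by linarith) rfl).mono ?_
    · intro x hx
      by_contra hxC
      have : φ x = 0 := hφ0 (fun hxi => hxC (interior_subset hxi))
      linarith
    · gcongr
  apply UpperBd.of_lt
  intro t ht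
  have ht0 : 0 < t := lt_of_le_of_lt (by positivity) ht
  rw [div_lt_iff₀ hv0] at ht
  -- choose `w` with `s / w ≤ t`
  have h5 : s / t < v := by
    rw [div_lt_iff₀ ht0]
    linarith
  obtain ⟨w, hw1, hw2⟩ := exists_between (max_lt h5 hv0)
  have hw3 : s / t < w := (le_max_left _ _).trans_lt hw1
  have hw4 : 0 < w := (le_max_right _ _).trans_lt hw1
  refine (key w hw4 hw2).mono ?_
  rw [div_lt_iff₀ ht0] at hw3
  rw [div_le_iff₀ hw4]
  linarith

lemma ee_sub_le (x y : ℝ) : ‖ee x - ee y‖ ≤ 2 * Real.pi * |x - y| := by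
  have h1 : ee x - ee y = -(ee y * (1 - ee (x - y))) := by
    have : ee x = ee y * ee (x - y) := by
      rw [← ee_add]
      congr 1
      ring
    rw [this]
    ring
  rw [h1, norm_neg, norm_mul, norm_ee, one_mul]
  exact Pool.Agent.H807R2.Dav.dd_le (x - y)

/-- the closure of the set of frequencies -/
lemma UpperBd.closure {h : ℕ → ℂ} (hh : ∀ n, ‖h n‖ ≤ 1) {C : Set UnitAddCircle} {s : ℝ} (hU : UpperBd h C s) :
    UpperBd h (closure C) s := by
  intro ε hε
  obtain ⟨H0, hH0⟩ := hU (ε / 2) (by positivity)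
  refine ⟨H0, fun H hH => ?_⟩
  obtain ⟨N0, hN0⟩ := hH0 H hH
  refine ⟨N0, fun N hN a ha => ?_⟩
  have hpi := Real.pi_pos
  set δ : ℝ := ε / 2 / (2 * Real.pi * (H + 1)) with hδ
  have hδ0 : 0 < δ := by positivity
  have hex : ∀ n, ∃ b : ℝ, ((b : ℝ) : UnitAddCircle) ∈ C ∧ |a n - b| ≤ δ := by
    intro n
    obtain ⟨z, hz, hd⟩ := Metric.mem_closure_iff.1 (ha n) δ hδ0
    obtain ⟨b, rfl⟩ := QuotientAddGroup.mk_surjective z
    refine ⟨b + (round (a n - b) : ℤ), ?_, ?_⟩
    · have : ((b + (round (a n - b) : ℤ) : ℝ) : UnitAddCircle) = ((b : ℝ) : UnitAddCircle) := by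
        rw [AddCircle.coe_add]
        have h2 : (((round (a n - b) : ℤ) : ℝ) : UnitAddCircle) = 0 := by
          rw [AddCircle.coe_eq_zero_iff]
          exact ⟨round (a n - b), by simp⟩
        rw [h2, add_zero]
      rw [this]
      exact hz
    · have h3 : dist ((a n : ℝ) : UnitAddCircle) ((b : ℝ) : UnitAddCircle) < δ := hd
      rw [dist_eq_norm, ← AddCircle.coe_sub, UnitAddCircle.norm_eq] at h3
      have h4 : a n - (b + ((round (a n - b) : ℤ) : ℝ)) = a n - b - ((round (a n - b) : ℤ) : ℝ) := by ring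
      rw [h4]
      exact h3.le
  choose b hb1 hb2 using hex
  have h1 := hN0 N hN b hb1
  have h2 : ∀ n ∈ range N, ‖WS h H n (a n)‖ ≤ ‖WS h H n (b n)‖ + ε / 2 * H := by
    intro n _
    have h3 : ‖WS h H n (a n) - WS h H n (b n)‖ ≤ ε / 2 * H := by
      unfold WS
      rw [← Finset.sum_sub_distrib]
      refine (norm_sum_le _ _).trans ?_
      have h4 : ∀ i ∈ range H, ‖h (n + i) * ee ((i : ℝ) * a n) - h (n + i) * ee ((i : ℝ) * b n)‖ ≤ ε / 2 := by
        intro i hi
        rw [Finset.mem_range] at hi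
        rw [← mul_sub, norm_mul]
        have h5 := ee_sub_le ((i : ℝ) * a n) ((i : ℝ) * b n)
        have h6 : |(i : ℝ) * a n - (i : ℝ) * b n| ≤ (H + 1) * δ := by
          rw [← mul_sub, abs_mul, abs_of_nonneg (Nat.cast_nonneg i : (0:ℝ) ≤ i)]
          have h7 : (i : ℝ) ≤ H + 1 := by
            have : (i : ℝ) < H := by exact_mod_cast hi
            linarith
          exact mul_le_mul h7 (hb2 n) (abs_nonneg _) (by positivity)
        have h8 : 2 * Real.pi * ((H + 1) * δ) = ε / 2 := by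
          rw [hδ]
          field_simp
        have h9 : 2 * Real.pi * |(i : ℝ) * a n - (i : ℝ) * b n| ≤ 2 * Real.pi * ((H + 1) * δ) := by gcongr
        calc ‖h (n + i)‖ * ‖ee ((i : ℝ) * a n) - ee ((i : ℝ) * b n)‖ ≤ 1 * (ε / 2) :=
              mul_le_mul (hh _) (by linarith) (norm_nonneg _) zero_le_one
          _ = ε / 2 := one_mul _
      refine (Finset.sum_le_sum h4).trans (le_of_eq ?_)
      rw [Finset.sum_const, Finset.card_range, nsmul_eq_mul]
      ring
    have h4 := norm_sub_norm_le (WS h H n (a n)) (WS h H n (b n))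
    linarith
  refine (Finset.sum_le_sum h2).trans ?_
  rw [Finset.sum_add_distrib, Finset.sum_const, Finset.card_range, nsmul_eq_mul]
  calc _ ≤ (s + ε / 2) * H * N + N * (ε / 2 * H) := by linarith
    _ = (s + ε) * H * N := by ring

end Pool.Agent.U237.LI
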